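import Mathlib.Analysis.Normed.Operator.Mul
import Mathlib.Analysis.Complex.Basic

set_option autoImplicit false

namespace Pool.Agent.MP_fe3998_an

variable (A : Type*) [NonUnitalNormedRing A] [NormedSpace ℂ A] [IsScalarTower ℂ A A]
  [SMulCommClass ℂ A A]

/-- The bilinear form `(a, b) ↦ f (a * b)`. -/
noncomputable def mulForm (f : A →L[ℂ] ℂ) : A →L[ℂ] A →L[ℂ] ℂ :=
  (ContinuousLinearMap.compL ℂ A A ℂ f).comp (ContinuousLinearMap.mul ℂ A)

/-- The two Arens products on the bidual agree: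
`F (a ↦ G (b ↦ f (a * b))) = G (b ↦ F (a ↦ f (a * b)))`. -/
def ArensRegular : Prop :=
  ∀ (f : A →L[ℂ] ℂ) (F G : (A →L[ℂ] ℂ) →L[ℂ] ℂ),
    F (G.comp (mulForm A f)) = G (F.comp (mulForm A f).flip)

end Pool.Agent.MP_fe3998_an
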