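import Mathlib.Analysis.Convex.Uniform
import Mathlib.Analysis.Normed.Operator.NormedSpace
import Mathlib.Algebra.Algebra.NonUnitalSubalgebra
import Mathlib.Analysis.Complex.Basic

set_option autoImplicit false

namespace Pool.Agent.MP_fe3998_an

variable {E : Type*} [NormedAddCommGroup E] [NormedSpace ℂ E] [UniformConvexSpace E]

/-- uniform convexity of the squared norm on a ball -/
theorem sq_gap {η C : ℝ} (hη : 0 < η) (hC : 0 < C) : ∃ K : ℝ, 0 ≤ K ∧ ∀ y y' : E,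
    ‖y‖ ≤ C → ‖y'‖ ≤ C →
      ‖y' - y‖ ≤ η + K * ((‖y‖ ^ 2 + ‖y'‖ ^ 2) / 2 - ‖(2 : ℂ)⁻¹ • (y + y')‖ ^ 2) := by
  obtain ⟨δ, hδ, h⟩ := exists_forall_closed_ball_dist_add_le_two_sub E (div_pos hη hC)
  set d := min δ 1 with hd
  have hd0 : 0 < d := lt_min hδ one_pos
  have hd1 : d ≤ 1 := min_le_right _ _
  have hdδ : d ≤ δ := min_le_left _ _
  refine ⟨2 * C / (d ^ 2 * η ^ 2 / 256), by positivity, fun y y' hy hy' => ?_⟩
  have hm : ‖(2 : ℂ)⁻¹ • (y + y')‖ = ‖y + y'‖ / 2 := by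
    rw [norm_smul, norm_inv, Complex.norm_two]
    ring
  rw [hm]
  have h1 : ‖y + y'‖ ≤ ‖y‖ + ‖y'‖ := norm_add_le _ _
  have h2 : ‖y' - y‖ ≤ ‖y'‖ + ‖y‖ := norm_sub_le _ _
  have n1 := norm_nonneg y
  have n2 := norm_nonneg y'
  have n3 := norm_nonneg (y + y')
  by_cases hlt : ‖y' - y‖ < η
  · have : 0 ≤ (‖y‖ ^ 2 + ‖y'‖ ^ 2) / 2 - (‖y + y'‖ / 2) ^ 2 := by
      nlinarith [sq_nonneg (‖y‖ - ‖y'‖)]
    have : 0 ≤ 2 * C / (d ^ 2 * η ^ 2 / 256) *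
      ((‖y‖ ^ 2 + ‖y'‖ ^ 2) / 2 - (‖y + y'‖ / 2) ^ 2) := by positivity
    linarith
  · push Not at hlt
    set ρ := max ‖y‖ ‖y'‖ with hρ
    have r1 : ‖y‖ ≤ ρ := le_max_left _ _
    have r2 : ‖y'‖ ≤ ρ := le_max_right _ _
    have r3 : η ≤ 2 * ρ := by linarith
    have r0 : 0 < ρ := by linarith
    have rC : ρ ≤ C := max_le hy hy'
    have hs : ∀ v : E, ‖(ρ⁻¹ : ℝ) • v‖ = ‖v‖ / ρ := fun v => by
      rw [norm_smul, norm_inv, Real.norm_of_nonneg r0.le]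
      ring
    have h3 := h (x := (ρ⁻¹ : ℝ) • y') (by rw [hs, div_le_one r0]; exact r2)
      (y := (ρ⁻¹ : ℝ) • y) (by rw [hs, div_le_one r0]; exact r1) (by
        rw [← smul_sub, hs]
        exact div_le_div₀ (norm_nonneg _) hlt r0 rC)
    rw [← smul_add, hs, div_le_iff₀ r0, add_comm] at h3
    have h4 : ‖y + y'‖ ≤ (2 - d) * ρ := by nlinarith
    have gap : d ^ 2 * η ^ 2 / 256 ≤ (‖y‖ ^ 2 + ‖y'‖ ^ 2) / 2 - (‖y + y'‖ / 2) ^ 2 := by
      have e1 : d ^ 2 * η ^ 2 ≤ d ^ 2 * (4 * ρ ^ 2) :=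
        mul_le_mul_of_nonneg_left (by nlinarith) (by positivity)
      by_cases hs2 : ‖y‖ + ‖y'‖ ≤ (2 - d / 4) * ρ
      · have : d * ρ / 4 ≤ |‖y‖ - ‖y'‖| := by
          rcases le_total ‖y‖ ‖y'‖ with c | c
          · rw [abs_of_nonpos (by linarith)]
            rw [hρ, max_eq_right c] at hs2 ⊢
            linarith
          · rw [abs_of_nonneg (by linarith)]
            rw [hρ, max_eq_left c] at hs2 ⊢
            linarith
        have h5 : (d * ρ / 4) ^ 2 ≤ (‖y‖ - ‖y'‖) ^ 2 := by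
          rw [← sq_abs (‖y‖ - ‖y'‖)]
          exact pow_le_pow_left₀ (by positivity) this 2
        nlinarith
      · push Not at hs2
        have h5 : ‖y + y'‖ ^ 2 ≤ ((2 - d) * ρ) ^ 2 := pow_le_pow_left₀ n3 h4 2
        have h6 : ((2 - d / 4) * ρ) ^ 2 ≤ (‖y‖ + ‖y'‖) ^ 2 :=
          pow_le_pow_left₀ (mul_nonneg (by linarith) r0.le) hs2.le 2
        have h7 : d ^ 2 * ρ ^ 2 ≤ d * ρ ^ 2 :=
          mul_le_mul_of_nonneg_right (by nlinarith) (by positivity)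
        have h8 : 0 ≤ d * ρ ^ 2 := by positivity
        nlinarith [sq_nonneg (‖y‖ - ‖y'‖)]
    have h9 := mul_le_mul_of_nonneg_left gap
      (show 0 ≤ 2 * C / (d ^ 2 * η ^ 2 / 256) by positivity)
    rw [div_mul_cancel₀ _ (by positivity)] at h9
    linarith

/-- no bounded functional on an algebra of operators on a uniformly convex space is triangular on
arbitrarily long bounded families -/
theorem no_triangle (𝒜 : NonUnitalSubalgebra ℂ (E →L[ℂ] E)) {C : ℝ} (hC : 0 < C) (A B : ℕ → 𝒜)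
    (hA : ∀ i, ‖(A i : E →L[ℂ] E)‖ ≤ C) (hB : ∀ j, ‖(B j : E →L[ℂ] E)‖ ≤ C)
    (Λ : ℕ → 𝒜 →ₗ[ℂ] ℂ) (hΛ : ∀ J T, ‖Λ J T‖ ≤ C * ‖(T : E →L[ℂ] E)‖)
    (h : ∀ J i j, j < J → Λ J (A i * B j) = if i < j then 1 else 0) : False := by
  obtain ⟨K, hK, gap⟩ := sq_gap (E := E) (η := 1 / (2 * C ^ 2)) (by positivity) hC
  have main : ∀ J k s : ℕ, s + 2 ^ k ≤ J → ∃ U W : 𝒜, ‖(U : E →L[ℂ] E)‖ ≤ C ∧
      (∀ i, i < s → Λ J (A i * U) = 1) ∧ (∀ i, s + 2 ^ k ≤ i + 1 → Λ J (A i * U) = 0) ∧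
      Λ J W = k ∧ ∀ x : E, ‖x‖ ≤ 1 → ‖(W : E →L[ℂ] E) x‖ ≤
        C * (1 / (2 * C ^ 2) * k + K * (C ^ 2 - ‖(U : E →L[ℂ] E) x‖ ^ 2)) := by
    intro J k
    have ux : ∀ U : 𝒜, ‖(U : E →L[ℂ] E)‖ ≤ C → ∀ x : E, ‖x‖ ≤ 1 → ‖(U : E →L[ℂ] E) x‖ ≤ C :=
      fun U hU x hx => ((U : E →L[ℂ] E).le_opNorm x).trans
        ((mul_le_mul hU hx (norm_nonneg _) hC.le).trans (by simp))
    induction k with
    | zero =>
      intro s hs
      refine ⟨B s, 0, hB s, fun i hi => ?_, fun i hi => ?_, by simp, fun x hx => ?_⟩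
      · rw [h J i s (by omega), if_pos hi]
      · rw [h J i s (by omega), if_neg (by omega)]
      · have := pow_le_pow_left₀ (norm_nonneg _) (ux _ (hB s) x hx) 2
        have h2 : 0 ≤ K * (C ^ 2 - ‖(B s : E →L[ℂ] E) x‖ ^ 2) := mul_nonneg hK (by linarith)
        simpa using mul_nonneg hC.le h2
    | succ k ih =>
      intro s hs
      have hp : 0 < 2 ^ k := by positivity
      rw [pow_succ] at hs
      obtain ⟨U, W, u1, u2, u3, u4, u5⟩ := ih s (by omega)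
      obtain ⟨U', W', v1, v2, v3, v4, v5⟩ := ih (s + 2 ^ k) (by omega)
      refine ⟨(2 : ℂ)⁻¹ • (U + U'), (2 : ℂ)⁻¹ • (W + W') + A (s + 2 ^ k - 1) * (U' - U), ?_,
        fun i hi => ?_, fun i hi => ?_, ?_, fun x hx => ?_⟩
      · push_cast
        rw [norm_smul, norm_inv, Complex.norm_two]
        have := norm_add_le (U : E →L[ℂ] E) U'
        linarith
      · rw [mul_smul_comm, mul_add, map_smul, map_add, u2 i hi, v2 i (by omega)]
        norm_num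
      · rw [pow_succ] at hi
        rw [mul_smul_comm, mul_add, map_smul, map_add, u3 i (by omega), v3 i (by omega)]
        simp
      · rw [map_add, map_smul, map_add, mul_sub, map_sub, u4, v4, u3 _ (by omega),
          v2 _ (by omega), smul_eq_mul]
        push_cast
        ring
      · have g := gap _ _ (ux U u1 x hx) (ux U' v1 x hx)
        have a1 := u5 x hx
        have a2 := v5 x hx
        change ‖(2 : ℂ)⁻¹ • ((W : E →L[ℂ] E) x + (W' : E →L[ℂ] E) x) +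
            (A (s + 2 ^ k - 1) : E →L[ℂ] E) ((U' : E →L[ℂ] E) x - (U : E →L[ℂ] E) x)‖ ≤
          C * (1 / (2 * C ^ 2) * ((k + 1 : ℕ) : ℝ) + K * (C ^ 2 -
            ‖(2 : ℂ)⁻¹ • ((U : E →L[ℂ] E) x + (U' : E →L[ℂ] E) x)‖ ^ 2))
        push_cast
        refine (norm_add_le _ _).trans ?_
        rw [norm_smul (2 : ℂ)⁻¹ ((W : E →L[ℂ] E) x + _), norm_inv, Complex.norm_two]
        have a3 := norm_add_le ((W : E →L[ℂ] E) x) ((W' : E →L[ℂ] E) x)
        have a4 := ((A (s + 2 ^ k - 1) : E →L[ℂ] E).le_opNorm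
          ((U' : E →L[ℂ] E) x - (U : E →L[ℂ] E) x)).trans
          (mul_le_mul (hA _) g (norm_nonneg _) hC.le)
        nlinarith
  obtain ⟨k, hk⟩ := exists_nat_gt (2 * (C ^ 4 * K))
  obtain ⟨U, W, -, -, -, w1, w2⟩ := main (2 ^ k) k 0 (by simp)
  have hW : ‖(W : E →L[ℂ] E)‖ ≤ C * (1 / (2 * C ^ 2) * k + K * C ^ 2) := by
    refine ContinuousLinearMap.opNorm_le_of_unit_norm (by positivity) fun x hx => ?_
    refine (w2 x hx.le).trans (mul_le_mul_of_nonneg_left ?_ hC.le)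
    have := mul_nonneg hK (sq_nonneg ‖(U : E →L[ℂ] E) x‖)
    nlinarith
  have h1 := (hΛ (2 ^ k) W).trans (mul_le_mul_of_nonneg_left hW hC.le)
  rw [w1, Complex.norm_natCast] at h1
  have e : C * (C * (1 / (2 * C ^ 2) * k + K * C ^ 2)) = k / 2 + C ^ 4 * K := by
    field_simp
  linarith

end Pool.Agent.MP_fe3998_an
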