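import Pool.Agent.MP_fe3998_an.Window
import Pool.Agent.MP_fe3998_an.Convex

set_option autoImplicit false

namespace Pool.Agent.MP_fe3998_an

open Finset
open scoped ENNReal NNReal

theorem injNorm_le {γ : ℕ → ℕ → ℂ} {B : ℝ} (h : Bdd γ B) : injNorm γ ≤ ENNReal.ofReal B := by
  refine iSup_le fun N => iSup_le fun x => iSup_le fun y => iSup_le fun hx => iSup_le fun hy => ?_
  rw [← ofReal_norm]
  exact ENNReal.ofReal_le_ofReal (h N x y hx hy)

theorem bdd_toReal {γ : ℕ → ℕ → ℂ} (h : injNorm γ ≠ ⊤) : Bdd γ (injNorm γ).toReal := by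
  intro N x y hx hy
  rw [← toReal_enorm]
  refine ENNReal.toReal_mono h ?_
  exact le_iSup_of_le N (le_iSup_of_le x (le_iSup_of_le y (le_iSup_of_le hx
    (le_iSup_of_le hy le_rfl))))

theorem xNorm_le {φ : PowerSeries ℂ} {γ : ℕ → ℕ → ℂ} {B : ℝ} (h : Bdd γ B) {d : ℕ}
    (h0 : ∀ a b, d ≤ a ∨ d ≤ b → γ a b = 0)
    (hr : ∀ n, PowerSeries.coeff n φ = ∑ j ∈ range (n + 1), γ j (n - j)) :
    xNorm φ ≤ ENNReal.ofReal B := by
  have hi : InInj γ := by
    intro ε hε
    refine ⟨d, γ, h0, lt_of_le_of_lt ?_ hε⟩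
    have : Bdd (γ - γ) 0 := fun N x y _ _ => by simp
    simpa using injNorm_le this
  unfold xNorm
  exact iInf_le_of_le γ (iInf_le_of_le hi (iInf_le_of_le hr (injNorm_le h)))

theorem xNorm_X_pow (s : ℕ) : xNorm (PowerSeries.X ^ s) ≤ 1 := by
  have h : Bdd (fun a b => if a = s ∧ b = 0 then 1 else 0) 1 := by
    intro N x y hx hy
    refine (norm_sum_le _ _).trans ?_
    have : ∀ a ∈ range N, ‖∑ b ∈ range N, (if a = s ∧ b = 0 then (1 : ℂ) else 0) * x a * y b‖ ≤
        if a = s then 1 else 0 := by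
      intro a ha
      rw [sum_eq_single 0 (fun b _ hb => by simp [hb])
        (fun hn => absurd (mem_range.2 (Nat.zero_lt_of_lt (mem_range.1 ha))) hn)]
      by_cases e : a = s
      · simpa [e] using mul_le_one₀ (hx s) (norm_nonneg _) (hy 0)
      · simp [e]
    refine (sum_le_sum this).trans ?_
    rw [sum_ite_eq']
    split_ifs <;> simp
  have := xNorm_le (φ := PowerSeries.X ^ s) h (d := s + 1)
    (fun a b hab => if_neg (by omega)) (fun n => by
      rw [PowerSeries.coeff_X_pow, sum_eq_single n (fun j hj hn => if_neg (by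
        have := mem_range.1 hj
        omega)) (fun hn => absurd (self_mem_range_succ n) hn)]
      simp)
  simpa using this

/-- pairing with a finite sequence -/
noncomputable def pair (m : ℕ → ℂ) (d : ℕ) : PowerSeries ℂ →ₗ[ℂ] ℂ :=
  ∑ n ∈ range d, m n • PowerSeries.coeff n

theorem pair_apply (m : ℕ → ℂ) (d : ℕ) (φ : PowerSeries ℂ) :
    pair m d φ = ∑ n ∈ range d, m n * PowerSeries.coeff n φ := by
  simp [pair]

theorem pair_rep {m : ℕ → ℂ} {d N : ℕ} (hN : d ≤ N) (h0 : ∀ n, d ≤ n → m n = 0)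
    {φ : PowerSeries ℂ} {γ : ℕ → ℕ → ℂ}
    (hr : ∀ n, PowerSeries.coeff n φ = ∑ j ∈ range (n + 1), γ j (n - j)) :
    pair m d φ = ∑ a ∈ range N, ∑ b ∈ range N, γ a b * m (a + b) := by
  rw [pair_apply, sum_subset (range_subset_range.2 hN) fun n _ hn => by
    rw [h0 n (by simpa using hn), zero_mul]]
  have e : ∀ n ∈ range N, m n * PowerSeries.coeff n φ =
      ∑ j ∈ range (n + 1), (fun a b => γ a b * m (a + b)) j (n - j) := by
    intro n _
    rw [hr, mul_sum]
    refine sum_congr rfl fun j hj => ?_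
    have := mem_range.1 hj
    simp only
    rw [show j + (n - j) = n by omega, mul_comm]
  rw [sum_congr rfl e, sum_range_diag_flip N fun a b => γ a b * m (a + b)]
  refine sum_congr rfl fun a _ => sum_subset (range_subset_range.2 (by omega)) fun b _ hb => ?_
  rw [h0 _ (by simp only [mem_range] at hb; omega), mul_zero]

theorem triangular : ∃ (φ ψ : ℕ → Polynomial ℂ) (Λ : ℕ → PowerSeries ℂ →ₗ[ℂ] ℂ),
    (∀ i, xNorm (φ i) ≤ 1) ∧ (∀ j, xNorm (ψ j) ≤ 3) ∧
    (∀ f, ∑' l, ‖Λ l f‖ₑ ≤ 4 * xNorm f) ∧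
    ∀ i j l, Λ l (φ i * ψ j) = if l = j ∧ i < j then 1 else 0 := by
  choose m f hw using fun j => exists_win (cut_pos j) (κ := cut j + j + 1) (by omega)
  replace hw : ∀ j, Win (cut j) (cut j + j + 1) (cut (j + 1)) (m j) (f j) := hw
  set ψ : ℕ → Polynomial ℂ := fun j => ∑ n ∈ range (cut (j + 1)), Polynomial.monomial n (f j n)
    with hψ
  have hc : ∀ j n, PowerSeries.coeff n (ψ j : PowerSeries ℂ) = f j n := by
    intro j n
    rw [Polynomial.coeff_coe, hψ]
    simp only [Polynomial.finsetSum_coeff, Polynomial.coeff_monomial, sum_ite_eq', mem_range]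
    split_ifs with h
    · rfl
    · exact ((hw j).f0 n (Or.inr (not_lt.1 h))).symm
  refine ⟨fun i => Polynomial.X ^ cut (i + 1), ψ, fun l => pair (m l) (cut (l + 1)),
    fun i => by simpa using xNorm_X_pow _, fun j => ?_, fun φ => ?_, fun i j l => ?_⟩
  · obtain ⟨γ, h1, h2, h3⟩ := (hw j).rep
    simpa using xNorm_le h1 h2 fun n => (hc j n).trans (h3 n)
  · rw [mul_comm, ← ENNReal.div_le_iff (by simp) (by simp)]
    refine le_iInf fun γ => le_iInf fun _ => le_iInf fun hr => ?_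
    rw [ENNReal.div_le_iff (by simp) (by simp)]
    by_cases ht : injNorm γ = ⊤
    · simp [ht]
    · refine ENNReal.tsum_le_of_sum_range_le fun J => ?_
      have := sum_bound hw (bdd_toReal ht) J (cut J)
      have e : ∑ l ∈ range J, ‖pair (m l) (cut (l + 1)) φ‖ₑ = ENNReal.ofReal
          (∑ j ∈ range J, ‖∑ a ∈ range (cut J), ∑ b ∈ range (cut J), γ a b * m j (a + b)‖) := by
        rw [ENNReal.ofReal_sum_of_nonneg fun _ _ => norm_nonneg _]
        refine sum_congr rfl fun l hl => ?_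
        rw [ofReal_norm, pair_rep (cut_mono.monotone (mem_range.1 hl))
          (fun n hn => (hw l).m0 n (Or.inr hn)) hr]
      rw [e]
      refine (ENNReal.ofReal_le_ofReal this).trans ?_
      rw [ENNReal.ofReal_mul (by norm_num), ENNReal.ofReal_toReal ht, mul_comm]
      simp
  · simp only [Polynomial.coe_pow, Polynomial.coe_X, pair_apply, PowerSeries.coeff_X_pow_mul', hc]
    split_ifs with h
    · obtain ⟨rfl, h⟩ := h
      have hs : cut (i + 1) ≤ cut l := cut_mono.monotone h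
      rw [sum_subset (range_subset_range.2 (Nat.le_add_left _ (cut (i + 1)))) fun n _ hn => by
        rw [(hw l).m0 n (Or.inr (by simpa using hn)), zero_mul], sum_range_add,
        sum_eq_zero fun n hn => by rw [if_neg (not_le.2 (mem_range.1 hn)), mul_zero], zero_add,
        ← (hw l).one _ hs]
      refine sum_congr rfl fun n _ => ?_
      rw [if_pos (Nat.le_add_right _ _), Nat.add_sub_cancel_left, mul_comm, add_comm]
    · refine sum_eq_zero fun n hn => ?_
      have hn' := mem_range.1 hn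
      split_ifs with hs
      · have hil : i < l := by
          have := cut_mono.lt_iff_lt.1 (lt_of_le_of_lt hs hn')
          omega
        have h1 : cut (i + 1) ≤ cut l := cut_mono.monotone hil
        rcases lt_trichotomy l j with c | c | c
        · have : cut (l + 1) ≤ cut j := cut_mono.monotone c
          rw [(hw j).f0 _ (Or.inl (by omega)), mul_zero]
        · exact absurd ⟨c, c ▸ hil⟩ h
        · have : cut (j + 1) ≤ cut l := cut_mono.monotone c
          by_cases h2 : n < 2 * cut l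
          · rw [(hw l).m0 n (Or.inl h2), zero_mul]
          · rw [(hw j).f0 _ (Or.inr (by omega)), mul_zero]
      · rw [mul_zero]

theorem not_subquotient {E : Type*} [NormedAddCommGroup E] [NormedSpace ℂ E]
    [UniformConvexSpace E] (𝒜 : NonUnitalSubalgebra ℂ (E →L[ℂ] E))
    (q : 𝒜 →ₙₐ[ℂ] PowerSeries ℂ) (C : ℝ≥0)
    (hq : ∀ T : 𝒜, xNorm (q T) ≤ C * ‖(T : E →L[ℂ] E)‖ₑ) :
    ¬ ∀ p : Polynomial ℂ, ∃ T : 𝒜, q T = p ∧ ‖(T : E →L[ℂ] E)‖ₑ ≤ C * xNorm p := by
  intro hl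
  obtain ⟨φ, ψ, Λ, h1, h2, h3, h4⟩ := triangular
  choose T hT hT' using hl
  have hC : (0 : ℝ) ≤ C := C.2
  have nb : ∀ p : Polynomial ℂ, xNorm p ≤ 3 → ‖(T p : E →L[ℂ] E)‖ ≤ 4 * C + 1 := by
    intro p hp
    have : ‖(T p : E →L[ℂ] E)‖ₑ ≤ ((C * 3 : ℝ≥0) : ℝ≥0∞) := by
      refine (hT' p).trans ?_
      push_cast
      gcongr
    have h5 : ‖(T p : E →L[ℂ] E)‖ ≤ ((C * 3 : ℝ≥0) : ℝ) := by
      rw [enorm_le_coe] at this
      exact_mod_cast this
    push_cast at h5
    linarith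
  refine no_triangle 𝒜 (C := 4 * C + 1) (by positivity) (fun i => T (φ i)) (fun j => T (ψ j))
    (fun i => nb _ ((h1 i).trans (by norm_num))) (fun j => nb _ (h2 j))
    (fun J => (∑ l ∈ range J, Λ l) ∘ₗ (q : 𝒜 →ₗ[ℂ] PowerSeries ℂ)) (fun J S => ?_)
    (fun J i j hj => ?_)
  · have e1 : ‖((∑ l ∈ range J, Λ l) ∘ₗ (q : 𝒜 →ₗ[ℂ] PowerSeries ℂ)) S‖ₑ ≤
        ((4 * C * ‖(S : E →L[ℂ] E)‖₊ : ℝ≥0) : ℝ≥0∞) := by
      have : ((∑ l ∈ range J, Λ l) ∘ₗ (q : 𝒜 →ₗ[ℂ] PowerSeries ℂ)) S =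
          ∑ l ∈ range J, Λ l (q S) := by simp
      rw [this]
      refine (enorm_sum_le _ _).trans ((ENNReal.sum_le_tsum _).trans ((h3 _).trans ?_))
      push_cast
      rw [mul_assoc]
      gcongr
      exact hq S
    rw [enorm_le_coe] at e1
    have e2 : ‖((∑ l ∈ range J, Λ l) ∘ₗ (q : 𝒜 →ₗ[ℂ] PowerSeries ℂ)) S‖ ≤
        4 * C * ‖(S : E →L[ℂ] E)‖ := by exact_mod_cast e1
    nlinarith [norm_nonneg (S : E →L[ℂ] E)]
  · have : ((∑ l ∈ range J, Λ l) ∘ₗ (q : 𝒜 →ₗ[ℂ] PowerSeries ℂ)) (T (φ i) * T (ψ j)) =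
        ∑ l ∈ range J, Λ l (q (T (φ i)) * q (T (ψ j))) := by simp
    rw [this, hT, hT, sum_eq_single j (fun l _ hl => by simp [h4, hl])
      (fun hn => absurd (mem_range.2 hj) hn)]
    simp [h4]

end Pool.Agent.MP_fe3998_an
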