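import Mathlib.Order.Filter.Ultrafilter.Basic
import Pool.Agent.MP_fe3998_an.Main
import Pool.Agent.MP_fe3998_an.DefsArens

set_option autoImplicit false

namespace Pool.Agent.MP_fe3998_an

open Filter Topology
open scoped ENNReal NNReal

theorem exists_bidual_limit {A : Type*} [NormedAddCommGroup A] [NormedSpace ℂ A] (a : ℕ → A)
    {R : ℝ} (ha : ∀ i, ‖a i‖ ≤ R) : ∃ F : (A →L[ℂ] ℂ) →L[ℂ] ℂ,
      ∀ (g : A →L[ℂ] ℂ) (z : ℂ), (∀ᶠ i in atTop, g (a i) = z) → F g = z := by
  have h : ∀ g : A →L[ℂ] ℂ, ∃ z ∈ Metric.closedBall (0 : ℂ) (R * ‖g‖),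
      Tendsto (fun i => g (a i)) (hyperfilter ℕ) (𝓝 z) := by
    intro g
    refine (isCompact_closedBall (0 : ℂ) (R * ‖g‖)).ultrafilter_le_nhds
      ((hyperfilter ℕ).map fun i => g (a i)) ?_
    rw [le_principal_iff, Ultrafilter.coe_map, mem_map]
    refine univ_mem' fun i => ?_
    simp only [Set.mem_preimage, mem_closedBall_zero_iff]
    exact (g.le_opNorm _).trans (by rw [mul_comm]; gcongr; exact ha i)
  choose L hL hL' using h
  refine ⟨LinearMap.mkContinuous
    { toFun := L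
      map_add' := fun g g' => tendsto_nhds_unique (hL' (g + g')) ((hL' g).add (hL' g'))
      map_smul' := fun c g => tendsto_nhds_unique (hL' (c • g)) ((hL' g).const_smul c) } R
    (fun g => mem_closedBall_zero_iff.1 (hL g)), fun g z hz => ?_⟩
  refine tendsto_nhds_unique (hL' g) (tendsto_const_nhds.congr' ?_)
  exact (hz.filter_mono Nat.hyperfilter_le_atTop).mono fun i hi => hi.symm

theorem not_arensRegular {A : Type*} [NonUnitalNormedRing A] [NormedSpace ℂ A]
    [IsScalarTower ℂ A A] [SMulCommClass ℂ A A] (q : A →ₙₐ[ℂ] PowerSeries ℂ) (C : ℝ≥0)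
    (hq : ∀ a : A, xNorm (q a) ≤ C * ‖a‖ₑ)
    (hl : ∀ p : Polynomial ℂ, ∃ a : A, q a = p ∧ ‖a‖ₑ ≤ C * xNorm p) : ¬ ArensRegular A := by
  intro hA
  obtain ⟨φ, ψ, Λ, h1, h2, h3, h4⟩ := triangular
  choose T hT hT' using hl
  have nb : ∀ p : Polynomial ℂ, xNorm p ≤ 3 → ‖T p‖ ≤ ((C * 3 : ℝ≥0) : ℝ) := by
    intro p hp
    have : ‖T p‖ₑ ≤ ((C * 3 : ℝ≥0) : ℝ≥0∞) := by
      refine (hT' p).trans ?_
      push_cast
      gcongr
    rw [enorm_le_coe] at this
    exact_mod_cast this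
  have e1 : ∀ a : A, ∑' l, ‖Λ l (q a)‖ₑ ≤ ((4 * C * ‖a‖₊ : ℝ≥0) : ℝ≥0∞) := by
    intro a
    refine (h3 _).trans ?_
    push_cast
    rw [mul_assoc]
    gcongr
    exact hq a
  have sm : ∀ a : A, Summable fun l => Λ l (q a) := fun a =>
    Summable.of_enorm (ne_top_of_le_ne_top ENNReal.coe_ne_top (e1 a))
  let f : A →L[ℂ] ℂ := LinearMap.mkContinuous
    { toFun := fun a => ∑' l, Λ l (q a)
      map_add' := fun a b => by
        simp only [map_add]
        exact (sm a).tsum_add (sm b)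
      map_smul' := fun c a => by
        simp only [map_smul, smul_eq_mul, RingHom.id_apply]
        exact tsum_mul_left } (4 * C) (fun a => by
      have := enorm_tsum_le_tsum_enorm.trans (e1 a)
      rw [enorm_le_coe] at this
      exact_mod_cast this)
  have hf : ∀ i j, mulForm A f (T (φ i)) (T (ψ j)) = if i < j then 1 else 0 := by
    intro i j
    change ∑' l, Λ l (q (T (φ i) * T (ψ j))) = _
    rw [map_mul, hT, hT, tsum_eq_single j fun l hl => by simp [h4, hl]]
    simp [h4]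
  obtain ⟨F, hF⟩ := exists_bidual_limit (fun i => T (φ i))
    fun i => nb _ ((h1 i).trans (by norm_num))
  obtain ⟨G, hG⟩ := exists_bidual_limit (fun j => T (ψ j)) fun j => nb _ (h2 j)
  have := hA f F G
  rw [hF _ 1 (Eventually.of_forall fun i => hG _ 1 ((eventually_gt_atTop i).mono fun j hj =>
      (hf i j).trans (if_pos hj))),
    hG _ 0 (Eventually.of_forall fun j => hF _ 0 ((eventually_ge_atTop j).mono fun i hi =>
      (hf i j).trans (if_neg (not_lt.2 hi))))] at this
  exact one_ne_zero this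

end Pool.Agent.MP_fe3998_an
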