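import Mathlib.RingTheory.PowerSeries.Basic
import Mathlib.Analysis.Complex.Basic

set_option autoImplicit false

namespace Pool.Agent.MP_fe3998_an

open scoped ENNReal

/-- The injective norm of an infinite matrix. -/
noncomputable def injNorm (γ : ℕ → ℕ → ℂ) : ℝ≥0∞ :=
  ⨆ (N : ℕ) (x : ℕ → ℂ) (y : ℕ → ℂ) (_ : ∀ m, ‖x m‖ ≤ 1) (_ : ∀ k, ‖y k‖ ≤ 1),
    ‖∑ m ∈ Finset.range N, ∑ k ∈ Finset.range N, γ m k * x m * y k‖ₑ

/-- `γ` is a limit of finitely supported matrices in the injective norm. -/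
def InInj (γ : ℕ → ℕ → ℂ) : Prop :=
  ∀ ε : ℝ≥0∞, 0 < ε → ∃ (N : ℕ) (δ : ℕ → ℕ → ℂ),
    (∀ m k, N ≤ m ∨ N ≤ k → δ m k = 0) ∧ injNorm (γ - δ) < ε

/-- The norm of the space `𝒳`, with value `∞` off `𝒳`. -/
noncomputable def xNorm (φ : PowerSeries ℂ) : ℝ≥0∞ :=
  ⨅ (γ : ℕ → ℕ → ℂ) (_ : InInj γ)
    (_ : ∀ n, PowerSeries.coeff n φ = ∑ j ∈ Finset.range (n + 1), γ j (n - j)), injNorm γ

end Pool.Agent.MP_fe3998_an
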