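import Mathlib.RingTheory.RootsOfUnity.Complex
import Pool.Agent.MP_fe3998_an.Defs

set_option autoImplicit false

namespace Pool.Agent.MP_fe3998_an

open Finset ComplexConjugate

/-- `ω 0, …, ω (M - 1)` are unimodular and their powers are orthogonal -/
structure Orth (M : ℕ) (ω : ℕ → ℂ) : Prop where
  norm : ∀ θ, ‖ω θ‖ = 1
  orth : ∀ a < M, ∀ b < M,
    ∑ θ ∈ range M, ω θ ^ a * conj (ω θ ^ b) = if a = b then (M : ℂ) else 0

theorem exists_orth {M : ℕ} (hM : 0 < M) : ∃ ω, Orth M ω := by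
  obtain ⟨ζ, hζ⟩ : ∃ ζ : ℂ, IsPrimitiveRoot ζ M := ⟨_, Complex.isPrimitiveRoot_exp M hM.ne'⟩
  have h1 : ‖ζ‖ = 1 := hζ.norm'_eq_one hM.ne'
  have h0 : ζ ≠ 0 := by
    rintro rfl
    simp at h1
  have hc : conj ζ = ζ⁻¹ := (Complex.inv_eq_conj h1).symm
  refine ⟨fun θ => ζ ^ θ, fun θ => by simp [h1], fun a ha b hb => ?_⟩
  have e : ∀ θ : ℕ, (ζ ^ θ) ^ a * conj ((ζ ^ θ) ^ b) = (ζ ^ a * (ζ ^ b)⁻¹) ^ θ := by
    intro θ
    simp only [map_pow, hc, mul_pow, inv_pow, ← pow_mul, mul_comm]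
  simp only [e]
  split_ifs with h
  · subst h
    simp [mul_inv_cancel₀ (pow_ne_zero a h0)]
  · have hne : ζ ^ a * (ζ ^ b)⁻¹ ≠ 1 := by
      intro h'
      rw [mul_inv_eq_one₀ (pow_ne_zero b h0)] at h'
      exact h (hζ.pow_inj ha hb h')
    have hp : (ζ ^ a * (ζ ^ b)⁻¹) ^ M = 1 := by
      rw [mul_pow, inv_pow, ← pow_mul, ← pow_mul, mul_comm a, mul_comm b, pow_mul, pow_mul,
        hζ.pow_eq_one]
      simp
    rw [geom_sum_eq hne, hp]
    simp

variable {M : ℕ} {ω : ℕ → ℂ}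

theorem Orth.coef (h : Orth M ω) (f : ℕ → ℂ) {K n : ℕ} (hK : K ≤ M) (hn : n < K) :
    ∑ θ ∈ range M, (∑ k ∈ range K, f k * ω θ ^ k) * conj (ω θ ^ n) = M * f n := by
  simp only [sum_mul, mul_assoc]
  rw [sum_comm]
  simp only [← mul_sum]
  rw [sum_eq_single n]
  · rw [h.orth n (by omega) n (by omega), if_pos rfl, mul_comm]
  · intro k hk hkn
    rw [h.orth k (by have := mem_range.1 hk; omega) n (by omega), if_neg hkn, mul_zero]
  · intro hn'
    exact absurd (mem_range.2 hn) hn'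

theorem Orth.parseval (h : Orth M ω) (f : ℕ → ℂ) {K : ℕ} (hK : K ≤ M) :
    ∑ θ ∈ range M, ‖∑ k ∈ range K, f k * ω θ ^ k‖ ^ 2 = M * ∑ k ∈ range K, ‖f k‖ ^ 2 := by
  apply Complex.ofReal_injective
  push_cast
  simp only [← Complex.mul_conj']
  have e : ∀ θ, (∑ k ∈ range K, f k * ω θ ^ k) * conj (∑ k ∈ range K, f k * ω θ ^ k) =
      ∑ n ∈ range K, (∑ k ∈ range K, f k * ω θ ^ k) * conj (ω θ ^ n) * conj (f n) := by
    intro θ
    rw [map_sum, mul_sum]
    refine sum_congr rfl fun n _ => ?_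
    rw [map_mul]
    ring
  simp only [e]
  rw [sum_comm, mul_sum]
  refine sum_congr rfl fun n hn => ?_
  rw [← sum_mul, h.coef f hK (mem_range.1 hn), mul_assoc]

/-- real form of a bound on the injective norm -/
def Bdd (γ : ℕ → ℕ → ℂ) (B : ℝ) : Prop :=
  ∀ (N : ℕ) (x y : ℕ → ℂ), (∀ m, ‖x m‖ ≤ 1) → (∀ k, ‖y k‖ ≤ 1) →
    ‖∑ m ∈ range N, ∑ k ∈ range N, γ m k * x m * y k‖ ≤ B

/-- diagonal blocks may be tested separately -/
theorem Bdd.blocks {γ : ℕ → ℕ → ℂ} {B : ℝ} (hγ : Bdd γ B) (β : ℕ → ℕ) (J N : ℕ)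
    (x y : ℕ → ℕ → ℂ) (hx : ∀ j a, ‖x j a‖ ≤ 1) (hy : ∀ j b, ‖y j b‖ ≤ 1) :
    ‖∑ j ∈ range J, ∑ a ∈ range N, ∑ b ∈ range N,
      (if β a = j ∧ β b = j then γ a b else 0) * x j a * y j b‖ ≤ B := by
  obtain ⟨ω, h⟩ := exists_orth (Nat.succ_pos J)
  set x' : ℕ → ℕ → ℂ := fun θ a => if β a < J then x (β a) a * ω θ ^ β a else 0 with hx'
  set y' : ℕ → ℕ → ℂ := fun θ b => if β b < J then y (β b) b * conj (ω θ ^ β b) else 0 with hy'
  have key : ((J + 1 : ℕ) : ℂ) * ∑ j ∈ range J, ∑ a ∈ range N, ∑ b ∈ range N,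
      (if β a = j ∧ β b = j then γ a b else 0) * x j a * y j b =
      ∑ θ ∈ range (J + 1), ∑ a ∈ range N, ∑ b ∈ range N, γ a b * x' θ a * y' θ b := by
    rw [sum_comm, sum_comm (s := range (J + 1)), mul_sum]
    refine sum_congr rfl fun a _ => ?_
    rw [sum_comm, sum_comm (s := range (J + 1)), mul_sum]
    refine sum_congr rfl fun b _ => ?_
    by_cases ha : β a < J
    · by_cases hb : β b < J
      · simp only [hx', hy', ha, hb, if_true]
        have e : ∀ θ, γ a b * (x (β a) a * ω θ ^ β a) * (y (β b) b * conj (ω θ ^ β b)) =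
            γ a b * x (β a) a * y (β b) b * (ω θ ^ β a * conj (ω θ ^ β b)) := fun θ => by ring
        simp only [e, ← mul_sum]
        rw [h.orth _ (by omega) _ (by omega), sum_eq_single (β a)]
        · by_cases hab : β a = β b
          · simp [hab]
            ring
          · simp [hab, Ne.symm hab]
        · intro j _ hj
          simp [Ne.symm hj]
        · intro hn
          exact absurd (mem_range.2 ha) hn
      · simp only [hy', hb, if_false, mul_zero, sum_const_zero]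
        rw [sum_eq_zero, mul_zero]
        intro j hj
        have : β b ≠ j := by have := mem_range.1 hj; omega
        simp [this]
    · simp only [hx', ha, if_false, mul_zero, zero_mul, sum_const_zero]
      rw [sum_eq_zero, mul_zero]
      intro j hj
      have : β a ≠ j := by have := mem_range.1 hj; omega
      simp [this]
  have hb : ‖∑ θ ∈ range (J + 1), ∑ a ∈ range N, ∑ b ∈ range N, γ a b * x' θ a * y' θ b‖ ≤
      ((J + 1 : ℕ) : ℝ) * B := by
    refine (norm_sum_le _ _).trans ?_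
    refine (sum_le_card_nsmul _ _ B fun θ _ => hγ N _ _ (fun a => ?_) (fun b => ?_)).trans
      (by simp)
    · simp only [hx']
      split_ifs
      · simpa [h.norm] using hx _ _
      · simp
    · simp only [hy']
      split_ifs
      · simpa [h.norm] using hy _ _
      · simp
  rw [← key, norm_mul, Complex.norm_natCast] at hb
  exact le_of_mul_le_mul_left hb (by positivity)

/-- a small kernel carried by the first `c` rows -/
theorem Bdd.rows {γ : ℕ → ℕ → ℂ} {B : ℝ} (hγ : Bdd γ B) (c N : ℕ) {ε : ℝ} (hε : 0 < ε)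
    (R : ℕ → ℕ → ℂ) (hR : ∀ a b, ‖R a b‖ ≤ ε) (h0 : ∀ a b, c ≤ a → R a b = 0) :
    ‖∑ a ∈ range N, ∑ b ∈ range N, γ a b * R a b‖ ≤ c * ε * B := by
  have hB : 0 ≤ B := by simpa using hγ 0 0 0 (by simp) (by simp)
  have row : ∀ a ∈ range N, ‖∑ b ∈ range N, γ a b * R a b‖ ≤ if a < c then ε * B else 0 := by
    intro a ha
    split_ifs with hc
    · have := hγ N (fun m => if m = a then 1 else 0) (fun b => R a b / ε)
        (fun m => by split_ifs <;> simp) (fun b => by
          rw [norm_div, Complex.norm_real, Real.norm_of_nonneg hε.le, div_le_one hε]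
          exact hR a b)
      rw [sum_eq_single a (fun m _ hm => by simp [hm]) (fun hn => absurd ha hn)] at this
      have e : ∑ b ∈ range N, γ a b * R a b =
          ε * ∑ b ∈ range N, γ a b * (if a = a then 1 else 0) * (R a b / ε) := by
        rw [mul_sum]
        refine sum_congr rfl fun b _ => ?_
        have : (ε : ℂ) ≠ 0 := by exact_mod_cast hε.ne'
        simp only [if_true]
        field_simp
      rw [e, norm_mul, Complex.norm_real, Real.norm_of_nonneg hε.le]
      exact mul_le_mul_of_nonneg_left this hε.le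
    · simp [h0 a _ (not_lt.1 hc)]
  refine (norm_sum_le _ _).trans ((sum_le_sum row).trans ?_)
  rw [← sum_filter, sum_const, nsmul_eq_mul, mul_assoc]
  refine mul_le_mul_of_nonneg_right ?_ (by positivity)
  have : (range N).filter (fun a => a < c) ⊆ range c := fun a ha =>
    mem_range.2 (mem_filter.1 ha).2
  exact_mod_cast (card_le_card this).trans (card_range c).le

theorem Bdd.flip {γ : ℕ → ℕ → ℂ} {B : ℝ} (hγ : Bdd γ B) : Bdd (fun a b => γ b a) B := by
  intro N x y hx hy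
  have := hγ N y x hy hx
  rw [sum_comm] at this
  simpa only [mul_right_comm] using this

end Pool.Agent.MP_fe3998_an
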