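import Mathlib.Analysis.InnerProductSpace.Basic
import Mathlib.Algebra.BigOperators.Field
import Pool.Agent.MP_fe3998_an.Four

set_option autoImplicit false

namespace Pool.Agent.MP_fe3998_an

open Finset ComplexConjugate

/-- Rudin-Shapiro pairs -/
theorem rudin_shapiro (k : ℕ) : ∃ p q : ℕ → ℂ,
    (∀ t, p t = 1 ∨ p t = -1) ∧ (∀ t, q t = 1 ∨ q t = -1) ∧ ∀ w : ℂ, ‖w‖ = 1 →
      ‖∑ t ∈ range (2 ^ k), p t * w ^ t‖ ^ 2 + ‖∑ t ∈ range (2 ^ k), q t * w ^ t‖ ^ 2 =
        2 * 2 ^ k := by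
  induction k with
  | zero => exact ⟨fun _ => 1, fun _ => 1, by simp, by simp, fun w _ => by norm_num⟩
  | succ k ih =>
    obtain ⟨p, q, hp, hq, h⟩ := ih
    refine ⟨fun t => if t < 2 ^ k then p t else q (t - 2 ^ k),
      fun t => if t < 2 ^ k then p t else -q (t - 2 ^ k), fun t => ?_, fun t => ?_,
      fun w hw => ?_⟩
    · dsimp only
      split_ifs
      exacts [hp _, hq _]
    · dsimp only
      split_ifs
      · exact hp _
      · rcases hq (t - 2 ^ k) with e | e <;> simp [e]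
    · have e1 : ∀ r : ℕ → ℂ, ∑ t ∈ range (2 ^ (k + 1)),
          (if t < 2 ^ k then p t else r (t - 2 ^ k)) * w ^ t =
          ∑ t ∈ range (2 ^ k), p t * w ^ t + w ^ 2 ^ k * ∑ t ∈ range (2 ^ k), r t * w ^ t := by
        intro r
        rw [pow_succ, mul_two, sum_range_add, mul_sum]
        congr 1
        · exact sum_congr rfl fun t ht => by rw [if_pos (mem_range.1 ht)]
        · refine sum_congr rfl fun t _ => ?_
          rw [if_neg (by omega), Nat.add_sub_cancel_left, pow_add]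
          ring
      rw [e1 q, e1 fun t => -q t]
      simp only [neg_mul, sum_neg_distrib, mul_neg, ← sub_eq_add_neg]
      have := parallelogram_law_with_norm ℂ (∑ t ∈ range (2 ^ k), p t * w ^ t)
        (w ^ 2 ^ k * ∑ t ∈ range (2 ^ k), q t * w ^ t)
      rw [norm_mul, norm_pow, hw, one_pow, one_mul] at this
      have h' := h w hw
      rw [pow_succ (2 : ℝ) k]
      nlinarith

/-- a moving average of an `ℓ²` sequence is tested by one character -/
theorem moving_average (u : ℕ → ℂ) {S : ℕ} (hS : 0 < S)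
    (hu : ∀ K, ∑ n ∈ range K, ‖u n‖ ^ 2 ≤ 2 * S) (γ : ℕ → ℕ → ℂ) (N : ℕ) :
    ∃ w : ℂ, ‖w‖ = 1 ∧
      ‖∑ a ∈ range N, ∑ b ∈ range N, γ a b * ((∑ k ∈ range S, u (a + b + k)) / S)‖ ≤
        3 / 2 * ‖∑ a ∈ range N, ∑ b ∈ range N, γ a b * w ^ a * w ^ b‖ := by
  set M := 2 * N + S with hM
  have hM0 : 0 < M := by omega
  obtain ⟨ω, h⟩ := exists_orth hM0
  set F : ℕ → ℂ := fun θ =>
    ∑ a ∈ range N, ∑ b ∈ range N, γ a b * conj (ω θ) ^ a * conj (ω θ) ^ b with hF
  obtain ⟨θ₀, -, hθ⟩ := exists_max_image (range M) (fun θ => ‖F θ‖) ⟨0, mem_range.2 hM0⟩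
  refine ⟨conj (ω θ₀), by simp [h.norm], ?_⟩
  set U : ℕ → ℂ := fun θ => ∑ n ∈ range M, u n * ω θ ^ n with hU
  set V : ℕ → ℂ := fun θ => ∑ k ∈ range S, 1 * ω θ ^ k with hV
  have hS' : (S : ℂ) ≠ 0 := by exact_mod_cast hS.ne'
  have key : ((M * S : ℕ) : ℂ) *
      ∑ a ∈ range N, ∑ b ∈ range N, γ a b * ((∑ k ∈ range S, u (a + b + k)) / S) =
      ∑ θ ∈ range M, U θ * conj (V θ) * F θ := by
    simp only [hF, mul_sum]
    rw [sum_comm (s := range M)]
    refine sum_congr rfl fun a ha => ?_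
    rw [sum_comm (s := range M)]
    refine sum_congr rfl fun b hb => ?_
    have e : ∀ θ, U θ * conj (V θ) * (γ a b * conj (ω θ) ^ a * conj (ω θ) ^ b) =
        ∑ k ∈ range S, γ a b * (U θ * conj (ω θ ^ (a + b + k))) := by
      intro θ
      simp only [hV, map_sum, mul_sum, sum_mul, map_mul, map_pow, map_one, pow_add]
      exact sum_congr rfl fun k _ => by ring
    simp only [e]
    rw [sum_comm]
    simp only [← mul_sum]
    have e2 : ∑ k ∈ range S, ∑ θ ∈ range M, U θ * conj (ω θ ^ (a + b + k)) =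
        M * ∑ k ∈ range S, u (a + b + k) := by
      rw [mul_sum]
      refine sum_congr rfl fun k hk => h.coef u le_rfl ?_
      have := mem_range.1 ha
      have := mem_range.1 hb
      have := mem_range.1 hk
      omega
    rw [e2]
    push_cast
    field_simp
  have p1 := h.parseval u le_rfl
  have p2 := h.parseval (fun _ => 1) (K := S) (by omega)
  have hb : ‖∑ θ ∈ range M, U θ * conj (V θ) * F θ‖ ≤ ((M * S : ℕ) : ℝ) * (3 / 2 * ‖F θ₀‖) := by
    refine (norm_sum_le _ _).trans ?_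
    have : ∀ θ ∈ range M, ‖U θ * conj (V θ) * F θ‖ ≤ (‖U θ‖ ^ 2 + ‖V θ‖ ^ 2) / 2 * ‖F θ₀‖ := by
      intro θ hθ'
      rw [norm_mul, norm_mul, Complex.norm_conj]
      refine mul_le_mul ?_ (hθ θ hθ') (norm_nonneg _) (by positivity)
      nlinarith [sq_nonneg (‖U θ‖ - ‖V θ‖)]
    refine (sum_le_sum this).trans ?_
    rw [← sum_mul, ← sum_div, sum_add_distrib, p1, p2, ← mul_assoc]
    refine mul_le_mul_of_nonneg_right ?_ (norm_nonneg _)
    have h3 := mul_le_mul_of_nonneg_left (hu M) (Nat.cast_nonneg (α := ℝ) M)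
    simp only [norm_one, one_pow, sum_const, card_range, nsmul_eq_mul, mul_one]
    push_cast
    nlinarith
  rw [← key, norm_mul, Complex.norm_natCast] at hb
  exact le_of_mul_le_mul_left hb (by positivity)

theorem sum_sq_cut (x : ℕ → ℂ) (hx : ∀ m, ‖x m‖ ≤ 1) (N K : ℕ) :
    ∑ a ∈ range K, ‖conj (if a < N then x a else 0)‖ ^ 2 ≤ N := by
  have : ∀ a ∈ range K, ‖conj (if a < N then x a else 0)‖ ^ 2 ≤ if a < N then 1 else 0 := by
    intro a _
    split_ifs
    · rw [Complex.norm_conj]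
      exact pow_le_one₀ (norm_nonneg _) (hx a)
    · simp
  refine (sum_le_sum this).trans ?_
  rw [← sum_filter, sum_const, nsmul_eq_mul, mul_one]
  have : (range K).filter (fun a => a < N) ⊆ range N := fun a ha =>
    mem_range.2 (mem_filter.1 ha).2
  exact_mod_cast (card_le_card this).trans (card_range N).le

/-- the Hankel type matrix of a polynomial of degree below `2 N` -/
theorem hankel_bdd (f : ℕ → ℂ) {N : ℕ} (hN : 0 < N) (h0 : ∀ n, 2 * N ≤ n → f n = 0)
    (hf : ∀ w : ℂ, ‖w‖ = 1 → ‖∑ n ∈ range (2 * N), f n * w ^ n‖ ≤ 2) :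
    Bdd (fun a b => if a < N then f (a + b) / N else 0) 3 := by
  intro K x y hx hy
  set M := 2 * K + 2 * N with hM
  have hM0 : 0 < M := by omega
  obtain ⟨ω, h⟩ := exists_orth hM0
  set H : ℕ → ℂ := fun θ => ∑ n ∈ range M, f n * ω θ ^ n with hH
  set X : ℕ → ℂ := fun θ => ∑ a ∈ range K, conj (if a < N then x a else 0) * ω θ ^ a with hX
  set Y : ℕ → ℂ := fun θ => ∑ b ∈ range K, conj (if b < 2 * N then y b else 0) * ω θ ^ b with hY
  have hN' : (N : ℂ) ≠ 0 := by exact_mod_cast hN.ne'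
  have key : ((M * N : ℕ) : ℂ) *
      ∑ a ∈ range K, ∑ b ∈ range K, (if a < N then f (a + b) / N else 0) * x a * y b =
      ∑ θ ∈ range M, H θ * (conj (X θ) * conj (Y θ)) := by
    simp only [hX, hY, map_sum, sum_mul_sum]
    simp only [mul_sum]
    rw [sum_comm (s := range M)]
    refine sum_congr rfl fun a ha => ?_
    rw [sum_comm (s := range M)]
    refine sum_congr rfl fun b hb => ?_
    have e : ∀ θ, H θ * (conj (conj (if a < N then x a else 0) * ω θ ^ a) *
        conj (conj (if b < 2 * N then y b else 0) * ω θ ^ b)) =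
        (if a < N then x a else 0) * (if b < 2 * N then y b else 0) *
          (H θ * conj (ω θ ^ (a + b))) := by
      intro θ
      simp only [map_mul, Complex.conj_conj, pow_add]
      ring
    simp only [e, ← mul_sum]
    rw [h.coef f le_rfl (by have := mem_range.1 ha; have := mem_range.1 hb; omega)]
    push_cast
    split_ifs with h1 h2
    · field_simp
    · simp [h0 (a + b) (by omega)]
    · simp
    · simp
  have p1 := h.parseval (fun a => conj (if a < N then x a else 0)) (K := K) (by omega)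
  have p2 := h.parseval (fun b => conj (if b < 2 * N then y b else 0)) (K := K) (by omega)
  have hb : ‖∑ θ ∈ range M, H θ * (conj (X θ) * conj (Y θ))‖ ≤ ((M * N : ℕ) : ℝ) * 3 := by
    refine (norm_sum_le _ _).trans ?_
    have : ∀ θ ∈ range M, ‖H θ * (conj (X θ) * conj (Y θ))‖ ≤ ‖X θ‖ ^ 2 + ‖Y θ‖ ^ 2 := by
      intro θ _
      have h2 : ‖H θ‖ ≤ 2 := by
        have e : H θ = ∑ n ∈ range (2 * N), f n * ω θ ^ n := by
          refine (sum_subset (range_subset_range.2 (by omega)) fun n _ hn => ?_).symm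
          rw [h0 n (by simpa using hn), zero_mul]
        rw [e]
        exact hf _ (h.norm θ)
      rw [norm_mul, norm_mul, Complex.norm_conj, Complex.norm_conj]
      nlinarith [sq_nonneg (‖X θ‖ - ‖Y θ‖), mul_nonneg (norm_nonneg (X θ)) (norm_nonneg (Y θ))]
    refine (sum_le_sum this).trans ?_
    rw [sum_add_distrib, p1, p2]
    have h3 := mul_le_mul_of_nonneg_left (sum_sq_cut x hx N K) (Nat.cast_nonneg (α := ℝ) M)
    have h4 := mul_le_mul_of_nonneg_left (sum_sq_cut y hy (2 * N) K) (Nat.cast_nonneg (α := ℝ) M)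
    push_cast at h4 ⊢
    nlinarith
  rw [← key, norm_mul, Complex.norm_natCast] at hb
  exact le_of_mul_le_mul_left hb (by positivity)

end Pool.Agent.MP_fe3998_an
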