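import Mathlib.Analysis.Normed.Operator.Mul
import Mathlib.Analysis.Complex.Basic
import Mathlib.Topology.ContinuousMap.Bounded.Normed

set_option autoImplicit false

namespace Pool.Agent.MP_fe3998_an

variable {A : Type*} [NonUnitalNormedRing A] [NormedSpace ℂ A] [IsScalarTower ℂ A A]
  [SMulCommClass ℂ A A]

/-- The bilinear form `(a, b) ↦ f (a * b)`. -/
noncomputable def prodForm (f : A →L[ℂ] ℂ) : A →L[ℂ] A →L[ℂ] ℂ :=
  (ContinuousLinearMap.compL ℂ A A ℂ f).comp (ContinuousLinearMap.mul ℂ A)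

/-- The two Arens products on the bidual agree at `f` (weak almost periodicity of `f`):
`F (a ↦ G (b ↦ f (a * b))) = G (b ↦ F (a ↦ f (a * b)))` for all `F`, `G` in the bidual. -/
def IsWap (f : A →L[ℂ] ℂ) : Prop :=
  ∀ F G : (A →L[ℂ] ℂ) →L[ℂ] ℂ, F (G.comp (prodForm f)) = G (F.comp (prodForm f).flip)

/-- `f` is at distance at least `r` from every functional at which the Arens products agree. -/
def FarFromWap (f : A →L[ℂ] ℂ) (r : ℝ) : Prop :=
  ∀ g : A →L[ℂ] ℂ, IsWap g → r ≤ ‖f - g‖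

end Pool.Agent.MP_fe3998_an
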