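import Mathlib.Order.Filter.Ultrafilter.Basic
import Pool.Agent.MP_fe3998_an.Main
import Pool.Agent.MP_fe3998_an.DefsWap

set_option autoImplicit false

namespace Pool.Agent.MP_fe3998_an

open Filter Topology
open scoped ENNReal NNReal

theorem exists_bidual_lim {A : Type*} [NormedAddCommGroup A] [NormedSpace ℂ A] (a : ℕ → A)
    {R : ℝ} (hR : 0 ≤ R) (ha : ∀ i, ‖a i‖ ≤ R) : ∃ F : (A →L[ℂ] ℂ) →L[ℂ] ℂ, ‖F‖ ≤ R ∧
      ∀ (g : A →L[ℂ] ℂ) (z : ℂ), (∀ᶠ i in atTop, g (a i) = z) → F g = z := by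
  have h : ∀ g : A →L[ℂ] ℂ, ∃ z ∈ Metric.closedBall (0 : ℂ) (R * ‖g‖),
      Tendsto (fun i => g (a i)) (hyperfilter ℕ) (𝓝 z) := by
    intro g
    refine (isCompact_closedBall (0 : ℂ) (R * ‖g‖)).ultrafilter_le_nhds
      ((hyperfilter ℕ).map fun i => g (a i)) ?_
    rw [le_principal_iff, Ultrafilter.coe_map, mem_map]
    refine univ_mem' fun i => ?_
    simp only [Set.mem_preimage, mem_closedBall_zero_iff]
    exact (g.le_opNorm _).trans (by rw [mul_comm]; gcongr; exact ha i)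
  choose L hL hL' using h
  refine ⟨LinearMap.mkContinuous
    { toFun := L
      map_add' := fun g g' => tendsto_nhds_unique (hL' (g + g')) ((hL' g).add (hL' g'))
      map_smul' := fun c g => tendsto_nhds_unique (hL' (c • g)) ((hL' g).const_smul c) } R
    (fun g => mem_closedBall_zero_iff.1 (hL g)), LinearMap.mkContinuous_norm_le _ hR _,
    fun g z hz => ?_⟩
  refine tendsto_nhds_unique (hL' g) (tendsto_const_nhds.congr' ?_)
  exact (hz.filter_mono Nat.hyperfilter_le_atTop).mono fun i hi => hi.symm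

variable {A : Type*} [NonUnitalNormedRing A] [NormedSpace ℂ A] [IsScalarTower ℂ A A]
  [SMulCommClass ℂ A A]

theorem norm_prodForm_le (f : A →L[ℂ] ℂ) : ‖prodForm f‖ ≤ ‖f‖ := by
  refine ContinuousLinearMap.opNorm_le_bound₂ _ (norm_nonneg _) fun a b => ?_
  change ‖f (a * b)‖ ≤ _
  rw [mul_assoc]
  exact (f.le_opNorm _).trans (by gcongr; exact norm_mul_le a b)

theorem arens_gap {f g : A →L[ℂ] ℂ} (hg : IsWap g) {F G : (A →L[ℂ] ℂ) →L[ℂ] ℂ} {R : ℝ}
    (hF : ‖F‖ ≤ R) (hG : ‖G‖ ≤ R) :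
    ‖F (G.comp (prodForm f)) - G (F.comp (prodForm f).flip)‖ ≤ 2 * R ^ 2 * ‖f - g‖ := by
  have hR : 0 ≤ R := F.opNorm_nonneg.trans hF
  have e : prodForm (f - g) = prodForm f - prodForm g := by
    ext a b
    rfl
  have e' : (prodForm (f - g)).flip = (prodForm f).flip - (prodForm g).flip := by
    ext a b
    rfl
  have e2 : F (G.comp (prodForm f)) - G (F.comp (prodForm f).flip) =
      F (G.comp (prodForm (f - g))) - G (F.comp (prodForm (f - g)).flip) := by
    rw [e', e, ContinuousLinearMap.comp_sub, ContinuousLinearMap.comp_sub, map_sub, map_sub,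
      hg F G]
    ring
  have hn := norm_prodForm_le (f - g)
  have b1 : ‖F (G.comp (prodForm (f - g)))‖ ≤ R * (R * ‖f - g‖) :=
    (F.le_opNorm _).trans (mul_le_mul hF ((G.opNorm_comp_le _).trans
      (mul_le_mul hG hn (norm_nonneg _) hR)) (norm_nonneg _) hR)
  have b2 : ‖G (F.comp (prodForm (f - g)).flip)‖ ≤ R * (R * ‖f - g‖) :=
    (G.le_opNorm _).trans (mul_le_mul hG ((F.opNorm_comp_le _).trans
      (mul_le_mul hF ((ContinuousLinearMap.opNorm_flip _).le.trans hn) (norm_nonneg _) hR))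
      (norm_nonneg _) hR)
  rw [e2]
  refine (norm_sub_le _ _).trans ?_
  nlinarith

theorem linf_mod_wap (q : A →ₙₐ[ℂ] PowerSeries ℂ) (C : ℝ≥0)
    (hq : ∀ a : A, xNorm (q a) ≤ C * ‖a‖ₑ)
    (hl : ∀ p : Polynomial ℂ, ∃ a : A, q a = p ∧ ‖a‖ₑ ≤ C * xNorm p) :
    ∃ (J : BoundedContinuousFunction ℕ ℂ →L[ℂ] (A →L[ℂ] ℂ)) (c : ℝ), 0 < c ∧
      ∀ (β : BoundedContinuousFunction ℕ ℂ) (g : A →L[ℂ] ℂ), IsWap g → c * ‖β‖ ≤ ‖J β - g‖ := by
  obtain ⟨φ, ψ, Λ, h1, h2, h3, h4⟩ := triangular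
  choose T hT hT' using hl
  have nb : ∀ p : Polynomial ℂ, xNorm p ≤ 3 → ‖T p‖ ≤ ((C * 3 : ℝ≥0) : ℝ) := by
    intro p hp
    have : ‖T p‖ₑ ≤ ((C * 3 : ℝ≥0) : ℝ≥0∞) := by
      refine (hT' p).trans ?_
      push_cast
      gcongr
    rw [enorm_le_coe] at this
    exact_mod_cast this
  have e1 : ∀ (β : BoundedContinuousFunction ℕ ℂ) (a : A), ∑' l, ‖β (Nat.unpair l).1 * Λ l (q a)‖ₑ ≤
      ((4 * C * ‖β‖₊ * ‖a‖₊ : ℝ≥0) : ℝ≥0∞) := by
    intro β a
    have hb : ∀ l, ‖β (Nat.unpair l).1 * Λ l (q a)‖ₑ ≤ ‖β‖ₑ * ‖Λ l (q a)‖ₑ := by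
      intro l
      rw [enorm_mul]
      gcongr
      rw [enorm_le_iff_norm_le]
      exact β.norm_coe_le_norm _
    refine (ENNReal.tsum_le_tsum hb).trans ?_
    rw [ENNReal.tsum_mul_left]
    calc ‖β‖ₑ * ∑' l, ‖Λ l (q a)‖ₑ ≤ ‖β‖ₑ * (4 * (C * ‖a‖ₑ)) := by
          gcongr
          exact (h3 _).trans (by gcongr; exact hq a)
      _ = _ := by
          push_cast
          rw [← enorm_eq_nnnorm, ← enorm_eq_nnnorm]
          ring
  have sm : ∀ (β : BoundedContinuousFunction ℕ ℂ) (a : A),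
      Summable fun l => β (Nat.unpair l).1 * Λ l (q a) := fun β a =>
    Summable.of_enorm (ne_top_of_le_ne_top ENNReal.coe_ne_top (e1 β a))
  let J : BoundedContinuousFunction ℕ ℂ →L[ℂ] (A →L[ℂ] ℂ) := LinearMap.mkContinuous₂
    (LinearMap.mk₂ ℂ (fun β a => ∑' l, β (Nat.unpair l).1 * Λ l (q a))
      (fun β β' a => by
        simp only [BoundedContinuousFunction.add_apply, add_mul]
        exact (sm β a).tsum_add (sm β' a))
      (fun c β a => by
        simp only [BoundedContinuousFunction.smul_apply, smul_eq_mul, mul_assoc]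
        exact tsum_mul_left)
      (fun β a b => by
        simp only [map_add, mul_add]
        exact (sm β a).tsum_add (sm β b))
      (fun c β a => by
        simp only [map_smul, smul_eq_mul, mul_left_comm _ c]
        exact tsum_mul_left)) (4 * C) (fun β a => by
      have := enorm_tsum_le_tsum_enorm.trans (e1 β a)
      rw [enorm_le_coe] at this
      exact_mod_cast this)
  have hf : ∀ β i j, prodForm (J β) (T (φ i)) (T (ψ j)) =
      if i < j then β (Nat.unpair j).1 else 0 := by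
    intro β i j
    change ∑' l, β (Nat.unpair l).1 * Λ l (q (T (φ i) * T (ψ j))) = _
    rw [map_mul, hT, hT, tsum_eq_single j fun l hl => by simp [h4, hl]]
    simp [h4]
  set R : ℝ := ((C * 3 : ℝ≥0) : ℝ) with hR
  have hR0 : 0 ≤ R := NNReal.coe_nonneg _
  obtain ⟨F, nF, hF⟩ := exists_bidual_lim (fun i => T (φ i)) hR0
    fun i => nb _ ((h1 i).trans (by norm_num))
  refine ⟨J, (2 * R ^ 2 + 1)⁻¹, by positivity, fun β g hg => ?_⟩
  rw [inv_mul_le_iff₀ (by positivity)]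
  refine (BoundedContinuousFunction.norm_le (by positivity)).2 fun k => ?_
  obtain ⟨G, nG, hG⟩ := exists_bidual_lim (fun j => T (ψ (Nat.pair k j))) hR0
    fun j => nb _ (h2 _)
  have := arens_gap (f := J β) hg nF nG
  rw [hF _ (β k) (Eventually.of_forall fun i => hG _ _ ((eventually_gt_atTop i).mono fun j hj =>
      (hf β i _).trans (by rw [if_pos (hj.trans_le (Nat.right_le_pair k j)), Nat.unpair_pair]))),
    hG _ 0 (Eventually.of_forall fun j => hF _ 0 ((eventually_ge_atTop (Nat.pair k j)).mono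
      fun i hi => (hf β i _).trans (if_neg (not_lt.2 hi)))), sub_zero] at this
  nlinarith [norm_nonneg (J β - g)]

end Pool.Agent.MP_fe3998_an
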