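import Pool.Agent.MP_fe3998_an.Block

set_option autoImplicit false

namespace Pool.Agent.MP_fe3998_an

open Finset

/-- data of one window `[c, d)` -/
structure Win (c κ d : ℕ) (m f : ℕ → ℂ) : Prop where
  m0 : ∀ n, n < 2 * c ∨ d ≤ n → m n = 0
  small : ∀ n, ‖m n‖ ≤ 1 / 2 ^ κ
  test : ∀ (γ : ℕ → ℕ → ℂ) (N : ℕ), ∃ w : ℂ, ‖w‖ = 1 ∧
    ‖∑ a ∈ range N, ∑ b ∈ range N, γ a b * m (a + b)‖ ≤
      3 / 2 * ‖∑ a ∈ range N, ∑ b ∈ range N, γ a b * w ^ a * w ^ b‖
  f0 : ∀ n, n < c ∨ d ≤ n → f n = 0
  rep : ∃ γ : ℕ → ℕ → ℂ, Bdd γ 3 ∧ (∀ a b, d ≤ a ∨ d ≤ b → γ a b = 0) ∧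
    ∀ n, f n = ∑ j ∈ range (n + 1), γ j (n - j)
  one : ∀ s ≤ c, ∑ n ∈ range d, f n * m (n + s) = 1

theorem exists_win {c κ : ℕ} (hc : 0 < c) (hκ : 0 < κ) :
    ∃ m f, Win c κ (4 * c * 2 ^ (2 * κ)) m f := by
  obtain ⟨p, q, hp, -, hpq⟩ := rudin_shapiro (2 * κ)
  set P : ℕ := 2 ^ (2 * κ) with hP
  have hP2 : 2 ≤ P := by
    calc 2 = 2 ^ 1 := rfl
      _ ≤ P := Nat.pow_le_pow_right (by norm_num) (by omega)
  set N : ℕ := 2 * c * P with hN
  have hNc : 4 * c ≤ N := by nlinarith
  have hd : 4 * c * P = 2 * N := by rw [hN]; ring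
  rw [hd]
  have hPr : (P : ℝ) = (2 ^ κ) ^ 2 := by rw [hP]; push_cast; ring
  have hPc : (P : ℂ) = (2 ^ κ) ^ 2 := by rw [hP]; push_cast; ring
  set g : ℕ → ℂ := fun t => p t / 2 ^ κ with hg
  have hgn : ∀ t, ‖g t‖ = 1 / 2 ^ κ := by
    intro t
    rcases hp t with e | e <;> simp [hg, e]
  have hgg : ∀ t, g t * g t = 1 / P := by
    intro t
    rw [hPc]
    rcases hp t with e | e <;> simp only [hg, e] <;> field_simp
  set u : ℕ → ℂ := fun n => if N ≤ n ∧ n < 2 * N then g ((n - N) / (2 * c)) else 0 with hu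
  set f : ℕ → ℂ := fun n => ∑ t ∈ range P, if n = N + 2 * c * t then g t else 0 with hf
  have hlt : ∀ t ∈ range P, N + 2 * c * t + 2 * c ≤ 2 * N := by
    intro t ht
    have : t + 1 ≤ P := mem_range.1 ht
    nlinarith
  have hf0 : ∀ n, n < N ∨ 2 * N ≤ n → f n = 0 := by
    intro n hn
    refine sum_eq_zero fun t ht => if_neg ?_
    have := hlt t ht
    omega
  have hsum : ∀ G : ℕ → ℂ, ∑ n ∈ range (2 * N), f n * G n =
      ∑ t ∈ range P, g t * G (N + 2 * c * t) := by
    intro G
    simp only [hf, sum_mul]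
    rw [sum_comm]
    refine sum_congr rfl fun t ht => ?_
    have := hlt t ht
    rw [sum_eq_single (N + 2 * c * t) (fun n _ hn => by simp [hn])
      (fun hn => absurd (mem_range.2 (by omega)) hn), if_pos rfl]
  have hc' : (c : ℂ) ≠ 0 := by exact_mod_cast hc.ne'
  refine ⟨fun n => (∑ k ∈ range c, u (n + k)) / c, f, ?_, ?_, ?_, ?_, ?_, ?_⟩
  · intro n hn
    rw [sum_eq_zero, zero_div]
    intro k hk
    have := mem_range.1 hk
    exact if_neg (by omega)
  · intro n
    rw [norm_div, Complex.norm_natCast, div_le_iff₀ (by positivity)]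
    refine (norm_sum_le _ _).trans ((sum_le_card_nsmul _ _ (1 / 2 ^ κ : ℝ) fun k _ => ?_).trans
      (by simp [mul_comm]))
    simp only [hu]
    split_ifs
    · exact (hgn _).le
    · simp
  · refine moving_average u hc fun K => ?_
    have : ∀ n ∈ range K, ‖u n‖ ^ 2 ≤ if n ∈ Ico N (2 * N) then 1 / (P : ℝ) else 0 := by
      intro n _
      simp only [hu, mem_Ico]
      split_ifs
      · rw [hgn, hPr, div_pow, one_pow]
      · simp
    refine (sum_le_sum this).trans ?_
    rw [← sum_filter, sum_const, nsmul_eq_mul]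
    have h1 : ((range K).filter (fun n => n ∈ Ico N (2 * N))).card ≤ N := by
      refine (card_le_card fun n hn => (mem_filter.1 hn).2).trans ?_
      rw [Nat.card_Ico]
      omega
    have h2 : (((range K).filter (fun n => n ∈ Ico N (2 * N))).card : ℝ) ≤ 2 * c * P := by
      exact_mod_cast h1
    have h3 : (0 : ℝ) < P := by positivity
    rw [mul_one_div, div_le_iff₀ h3]
    exact h2
  · intro n hn
    exact hf0 n (by omega)
  · refine ⟨_, hankel_bdd f (N := N) (by omega) (fun n hn => hf0 n (Or.inr hn)) fun w hw => ?_,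
      fun a b hab => ?_, fun n => ?_⟩
    · rw [hsum]
      have e : ∑ t ∈ range P, g t * w ^ (N + 2 * c * t) =
          w ^ N / 2 ^ κ * ∑ t ∈ range P, p t * (w ^ (2 * c)) ^ t := by
        rw [mul_sum]
        refine sum_congr rfl fun t _ => ?_
        rw [pow_add, pow_mul]
        simp only [hg]
        ring
      have h1 := hpq (w ^ (2 * c)) (by simp [hw])
      have h2 : ‖∑ t ∈ range P, p t * (w ^ (2 * c)) ^ t‖ ≤ 2 * 2 ^ κ := by
        refine (pow_le_pow_iff_left₀ (norm_nonneg _) (by positivity) two_ne_zero).1 ?_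
        have h3 : (2 : ℝ) ^ (2 * κ) = (2 ^ κ) ^ 2 := by ring
        nlinarith [sq_nonneg ‖∑ t ∈ range P, q t * (w ^ (2 * c)) ^ t‖, sq_nonneg ((2 : ℝ) ^ κ)]
      rw [e, norm_mul, norm_div, norm_pow, hw, one_pow, norm_pow, Complex.norm_two,
        one_div, inv_mul_le_iff₀ (by positivity)]
      linarith
    · split_ifs with h
      · rw [hf0 _ (by omega), zero_div]
      · rfl
    · have e : ∀ j ∈ range (n + 1), (if j < N then f (j + (n - j)) / N else 0) =
          if j < N then f n / N else 0 := by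
        intro j hj
        have := mem_range.1 hj
        rw [show j + (n - j) = n by omega]
      rw [sum_congr rfl e]
      by_cases hn : n < N
      · simp [hf0 n (Or.inl hn)]
      · rw [← sum_filter, sum_const, nsmul_eq_mul]
        have : (range (n + 1)).filter (fun j => j < N) = range N := by
          ext j
          simp only [mem_filter, mem_range]
          omega
        have hN' : (N : ℂ) ≠ 0 := by
          have : 0 < N := by omega
          exact_mod_cast this.ne'
        rw [this, card_range]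
        field_simp
  · intro s hs
    rw [hsum]
    have e : ∀ t ∈ range P, g t * ((∑ k ∈ range c, u (N + 2 * c * t + s + k)) / c) = 1 / P := by
      intro t ht
      have h1 := hlt t ht
      have : ∀ k ∈ range c, u (N + 2 * c * t + s + k) = g t := by
        intro k hk
        have h2 := mem_range.1 hk
        simp only [hu]
        rw [if_pos (by omega)]
        congr 1
        rw [show N + 2 * c * t + s + k - N = s + k + 2 * c * t by omega,
          Nat.add_mul_div_left _ _ (by omega), Nat.div_eq_of_lt (by omega), zero_add]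
      rw [sum_congr rfl this, sum_const, card_range, nsmul_eq_mul, ← hgg t]
      field_simp
    rw [sum_congr rfl e, sum_const, card_range, nsmul_eq_mul]
    have : (P : ℂ) ≠ 0 := by
      have : 0 < P := by omega
      exact_mod_cast this.ne'
    field_simp

/-- the cut points -/
def cut : ℕ → ℕ
  | 0 => 1
  | j + 1 => 4 * cut j * 2 ^ (2 * (cut j + j + 1))

theorem cut_pos (j : ℕ) : 0 < cut j := by
  induction j with
  | zero => exact Nat.one_pos
  | succ j ih => rw [cut]; positivity

theorem cut_mono : StrictMono cut := by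
  refine strictMono_nat_of_lt_succ fun j => ?_
  have := cut_pos j
  have h : 0 < 2 ^ (2 * (cut j + j + 1)) := by positivity
  rw [cut]
  nlinarith

/-- the windows together define a bounded map into `ℓ¹` -/
theorem sum_bound {m f : ℕ → ℕ → ℂ}
    (hw : ∀ j, Win (cut j) (cut j + j + 1) (cut (j + 1)) (m j) (f j))
    {γ : ℕ → ℕ → ℂ} {B : ℝ} (hγ : Bdd γ B) (J N : ℕ) :
    ∑ j ∈ range J, ‖∑ a ∈ range N, ∑ b ∈ range N, γ a b * m j (a + b)‖ ≤ 4 * B := by
  have hB : 0 ≤ B := by simpa using hγ 0 0 0 (by simp) (by simp)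
  have ex : ∀ a, ∃ j, a < cut (j + 1) := fun a =>
    ⟨a, lt_of_lt_of_le (Nat.lt_succ_self a) (cut_mono.id_le (a + 1))⟩
  set β : ℕ → ℕ := fun a => Nat.find (ex a) with hβ
  have hβ' : ∀ a j, cut j ≤ a → a < cut (j + 1) → β a = j := by
    intro a j h1 h2
    refine (Nat.find_eq_iff _).2 ⟨h2, fun i hi => not_lt.2 ((cut_mono.monotone ?_).trans h1)⟩
    omega
  set γ' : ℕ → ℕ → ℕ → ℂ := fun j a b => if β a = j ∧ β b = j then γ a b else 0 with hγ'
  choose w hw1 hw2 using fun j => (hw j).test (γ' j) N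
  choose z hz1 hz2 using fun j => Complex.exists_norm_eq_mul_self
    (∑ a ∈ range N, ∑ b ∈ range N, γ' j a b * w j ^ a * w j ^ b)
  have d1 : ∑ j ∈ range J, ‖∑ a ∈ range N, ∑ b ∈ range N, γ' j a b * w j ^ a * w j ^ b‖ ≤ B := by
    have := hγ.blocks β J N (fun j a => z j * w j ^ a) (fun j b => w j ^ b)
      (fun j a => by simp [hz1, hw1]) (fun j b => by simp [hw1])
    have e : ∑ j ∈ range J, ∑ a ∈ range N, ∑ b ∈ range N,
        (if β a = j ∧ β b = j then γ a b else 0) * (z j * w j ^ a) * w j ^ b =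
        ((∑ j ∈ range J, ‖∑ a ∈ range N, ∑ b ∈ range N, γ' j a b * w j ^ a * w j ^ b‖ : ℝ) :
          ℂ) := by
      push_cast
      refine sum_congr rfl fun j _ => ?_
      rw [hz2 j]
      simp only [mul_sum, hγ']
      exact sum_congr rfl fun a _ => sum_congr rfl fun b _ => by ring
    rw [e, Complex.norm_real] at this
    exact (le_abs_self _).trans this
  have d2 : ∀ j, ‖∑ a ∈ range N, ∑ b ∈ range N, γ a b * m j (a + b)‖ ≤
      3 / 2 * ‖∑ a ∈ range N, ∑ b ∈ range N, γ' j a b * w j ^ a * w j ^ b‖ + (1 / 2) ^ j * B := by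
    intro j
    set R : ℕ → ℕ → ℂ := fun a b => if β a = j ∧ β b = j then 0 else m j (a + b) with hR
    have hRs : ∀ a b, ‖R a b‖ ≤ 1 / 2 ^ (cut j + j + 1) := by
      intro a b
      simp only [hR]
      split_ifs
      · simp
      · exact (hw j).small _
    have hε : (0 : ℝ) < 1 / 2 ^ (cut j + j + 1) := by positivity
    have r1 := hγ.rows (cut j) N hε (fun a b => if a < cut j then R a b else 0)
      (fun a b => by
        split_ifs
        · exact hRs a b
        · simp) (fun a b h => if_neg (not_lt.2 h))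
    have r2 := hγ.flip.rows (cut j) N hε (fun b a => if a < cut j then 0 else R a b)
      (fun b a => by
        split_ifs
        · simp
        · exact hRs a b) (fun b a h => by
        split_ifs with ha
        · rfl
        · simp only [hR]
          split_ifs with hab
          · rfl
          · by_contra hne
            have h3 : ¬ (cut (j + 1) ≤ a + b) := fun h4 => hne ((hw j).m0 _ (Or.inr h4))
            exact hab ⟨hβ' a j (by omega) (by omega), hβ' b j h (by omega)⟩)
    rw [sum_comm] at r2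
    have e : ∑ a ∈ range N, ∑ b ∈ range N, γ a b * m j (a + b) =
        ∑ a ∈ range N, ∑ b ∈ range N, γ' j a b * m j (a + b) +
        (∑ a ∈ range N, ∑ b ∈ range N, γ a b * (if a < cut j then R a b else 0) +
        ∑ a ∈ range N, ∑ b ∈ range N, γ a b * (if a < cut j then 0 else R a b)) := by
      simp only [← sum_add_distrib]
      refine sum_congr rfl fun a _ => sum_congr rfl fun b _ => ?_
      simp only [hγ', hR]
      split_ifs <;> simp
    have hc : (cut j : ℝ) * (1 / 2 ^ (cut j + j + 1)) ≤ (1 / 2) ^ j / 2 := by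
      have h1 : (cut j : ℝ) ≤ 2 ^ cut j := by exact_mod_cast Nat.lt_two_pow_self.le
      rw [mul_one_div, div_le_iff₀ (by positivity), pow_add, pow_add, one_div, inv_pow]
      field_simp
      exact h1
    have hc2 := mul_le_mul_of_nonneg_right hc hB
    rw [e]
    refine (norm_add_le _ _).trans (add_le_add (hw2 j) ((norm_add_le _ _).trans ?_))
    linarith
  refine (sum_le_sum fun j _ => d2 j).trans ?_
  rw [sum_add_distrib, ← mul_sum, ← sum_mul]
  have := mul_le_mul_of_nonneg_right (sum_geometric_two_le J) hB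
  linarith

end Pool.Agent.MP_fe3998_an
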